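import Pool.Agent.Helper77.UA.F

/-!
# The `L^p` Mahler inequality for large `p`: the threshold depends only on the asymmetry

For every `b` there is `p₀(b)` such that the inequality of Q1 holds for all dimensions `n`, all finite
`p ≥ p₀(b)` and all convex bodies `K` of `ℝⁿ` (in any position) whose Minkowski asymmetry is at most `b`
(`-K ⊆ b K + a` for some `a`), and for all convex bodies of `ℝⁿ` if `n ≤ b`, with equality only for
simplices, with a stability term, and with an exponential gap in high dimensions.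

Proof.
* Fixed dimension.  This is the theorem of the swarm LP (`Helper63.LP.All.main`): for every `n` there is
  `p₀(n)` such that the inequality, its equality cases and its stability hold for all bodies of `ℝⁿ` and
  all `p ≥ p₀(n)`.  (Near the simplices: first order analysis at the vertices, uniform in `p`, and a
  correlation inequality with a radial weight.  Far from the simplices: the path of densities which
  proves the case `p = ∞`.)
* High dimension.  In the path of densities which proves `MahlerConjecture` the gauge integrals `A_s`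
  satisfy `A_s V* ≥ 1`, `A_s ≥ (1-s)^(n+1) φ` and `A_s ≤ φ ∑ (1-s)^(n-j) (b s)^j`.  At `s = 1/(1+b)` the
  last sum is `(n+1) (b/(1+b))^n`, so `φ V*` is exponentially large and the path gains on an interval of
  `s` of fixed length: `|K| |K°| ≥ e^(ε n) (n+1)^(n+1)/(n!)²` with `ε = ε(b) > 0` and all `n ≥ n₀(b)`,
  hence `M_p(K) ≥ M_∞(K) ≥ e^(ε n) (n+1)^(n+1)/n!` in every position.
* The simplex, uniformly in the dimension.  A box at the vertex which maximises `⟨x, y⟩` gives
  `∫_Δ e^(p⟨x,y⟩) dx ≥ |Δ| (δ/(2e²))^n e^(p(1-δ)h(y))` for the centered simplex with support function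
  `h`, hence `inf_x M_p(Δ_n - x) ≤ e^(ε n/2) (n+1)^(n+1)/n!` for all `p ≥ p₁(ε)` and all `n`.

Authors: helper77 (this file, `Helper77/UA`), helper68 (`Helper68/LP/STA.lean`), and the authors of
`MahlerConjecture`, of the local minimality at the simplex and of the swarm LP (helpers 3, 5, 9, 11, 14, 20, 29, 36,
37, 53, 54, 62, 63, 66, 67, 68, 72, 77, 79, 81, 87, 89, 95, 98).
-/

set_option autoImplicit false

noncomputable section

open MeasureTheory
open scoped ENNReal

namespace Pool.Agent.Results.MP_5f4cdd_gt.LargeExponents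

variable {n : ℕ}

/-- convex bodies of `ℝⁿ` (in any position) -/
def Body (K : Set (Fin n → ℝ)) : Prop :=
  Convex ℝ K ∧ IsCompact K ∧ (interior K).Nonempty

/-- the `L^p` Mahler volume `|L| ∫ exp (-h_{p,L}(y)) dy` for real `p > 0`, where
`exp (-h_{p,L}(y))` is the power `-1/p` of the average of `exp (p ⟨x, y⟩)` over `L` -/
def Mp (p : ℝ) (L : Set (Fin n → ℝ)) : ℝ≥0∞ := volume L *
  ∫⁻ y : Fin n → ℝ, ENNReal.ofReal
    (((∫ x in L, Real.exp (p * ∑ i, x i * y i)) / (volume L).toReal) ^ (-(1 / p)))

/-- the standard simplex `Δ_n` -/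
def stdSimp (n : ℕ) : Set (Fin n → ℝ) := {z | (∀ i, 0 ≤ z i) ∧ ∑ i, z i ≤ 1}

/-- simplices: the images of the standard simplex under the invertible affine maps -/
def IsSimplex (T : Set (Fin n → ℝ)) : Prop :=
  ∃ (A : Matrix (Fin n) (Fin n) ℝ) (c : Fin n → ℝ), A.det ≠ 0 ∧
    T = (fun x => A.mulVec x + c) '' stdSimp n

/-- the right hand side of Q1: the infimum of `M_p (Δ_n - x)` over `x ∈ Δ_n` -/
def infSimp (p : ℝ) (n : ℕ) : ℝ≥0∞ :=
  ⨅ x ∈ stdSimp n, Mp p ((fun z => z - x) '' stdSimp n)

/-- `-K ⊆ b K + a` for some vector `a`: the Minkowski asymmetry of `K` is at most `b` -/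
def AsymLE (K : Set (Fin n → ℝ)) (b : ℝ) : Prop :=
  ∃ a : Fin n → ℝ, ∀ x ∈ K, ∃ z ∈ K, -x = b • z + a

/-- **The `L^p` Mahler inequality of Q1 for large `p`, with a threshold which depends only on the
asymmetry and not on the dimension.** -/
theorem result (b : ℝ) (hb : 0 ≤ b) : ∃ (p₀ δ : ℝ) (n₀ : ℕ), 1 ≤ p₀ ∧ 0 < δ ∧
    ∀ n : ℕ, 1 ≤ n → ∀ (p : ℝ) (K : Set (Fin n → ℝ)), p₀ ≤ p → Body K →
      ((n : ℝ) ≤ b ∨ AsymLE K b) →
      -- (1) the inequality of Q1
      infSimp p n ≤ Mp p K ∧
      -- (2) with equality only if `K` is a simplex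
      (Mp p K = infSimp p n → IsSimplex K) ∧
      -- (3) stability
      (∃ T : Set (Fin n → ℝ), IsSimplex T ∧ K ⊆ T ∧
        ENNReal.ofReal (1 + δ * min 1 ((volume T).toReal / (volume K).toReal - 1)) *
          infSimp p n ≤ Mp p K) ∧
      -- (4) exponential gap in high dimensions
      (n₀ ≤ n → ENNReal.ofReal (Real.exp (δ * n)) * infSimp p n ≤ Mp p K) := by
  obtain ⟨p₀, δ, n₀, hp₀, hδ, h⟩ := Pool.Agent.Helper77.UA.fixed b hb
  refine ⟨p₀, δ, n₀, hp₀, hδ, ?_⟩
  rintro n hn p K hp ⟨hcv, hcp, hin⟩ hor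
  exact h n hn p K hp hcv hcp hin hor

end Pool.Agent.Results.MP_5f4cdd_gt.LargeExponents

end
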