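import Pool.Agent.Helper37.EQ.All

/-!
# Mahler's conjecture for general convex bodies, in all dimensions (`p = ∞`), with its equality cases

For every `n` and every convex body `K` of `ℝⁿ`, in any position, `M(K) = |K| ∫ exp (-h_K)` is at
least `(n+1)^(n+1)/n!`, the value of the simplex with its centroid at the origin, and equality holds
only for the simplices with centroid at the origin; in other words `|K| |K°| ≥ (n+1)^(n+1)/(n!)²`
for every convex body with the origin in its interior, with the same equality cases.

Proof.  Let `d = n + 1`, `C ⊂ ℝᵈ` a closed convex cone, `e` in the interior of the dual cone `C*`,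
`z` in the interior of `C`, `φ = ∫_C e^{-e}`, `φ* = ∫_{C*} e^{-z}`, `V = |[0,z]_C|`,
`V* = |[0,e]_{C*}|`.  The theorem is `log (φ φ*) ≥ d - e(z)` for the cone over `K`, and it is the sum
for `C` and `C*` of the one-cone inequality

  (N1)  `2 log φ + e(z) - d ≥ log V - log V*`.

(N1) is proved by a path of probability densities.  A density `G` belongs to the class `(t, s)` if
`G (x + v) ≥ e^{-e(v)/t} G (x)` and `G (x - v) ≥ e^{-e(v)/s} G (x)` for `v ∈ C`.
* Every density of the class `(t, 1 - t)` has entropy at least `d - log V*`: Prékopa-Leindler and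
  Jensen give `H(G) ≥ d + log A_t`, `A_t = ∫ e^{-N_t}`, with the gauge `N_t(v) = inf {e(a)/t +
  e(b)/(1-t) : v = a - b}`, and `V* A_t ≥ 1` follows from the library's theorem `HarmonicBody`
  (complex analytic proof of the symmetric Mahler inequality, asymmetric form).
* Let `J_t`, `K_s` be the maximum likelihood projections on the densities with up-slope `1/t`,
  respectively down-slope `1/s` (minimisers of `∫ (b log (b/G) - b + G)`).  They preserve every other
  slope bound of `b` (comparison principle and translation invariance).  Start with a density `R₀`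
  concentrated on `[0,z]`, put `R_i = K_{s_i} R_{i-1}` with `s_i` increasing from `0` to `1` and
  `G_i = J_{1-s_i} R_i`, a density of the class `(1 - s_i, s_i)`.  The first order conditions of the
  two projections, used for the potentials of the neighbouring densities, telescope to
  `∑ (s_i - s_{i-1}) H(G_i) ≤ 2 log φ + e(z) - log V + o(1)`.

Equality cases.  The path keeps the factors `A_t V*`, so equality in (N1) gives `A_t V* = 1` for
every `t` in `(0,1)`, hence (`t → 1`) `A_t = φ`.  If `-K ⊂ b K + a` then the slices of the unit ball of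
the gauge lie in translates of `(t l + b (1-t) (1-l)) K`, so `A_t ≤ φ ∑_j t^(n-j) (b (1-t))^j`, which
is less than `φ` for `b < n` and `t` close to `1`.  So the Minkowski asymmetry of `K` is `n`, and the
contact points of the optimal inclusion show that `K` is a simplex; strict convexity of
`s ↦ ∫ exp (⟨s, y⟩ - h_K(y)) dy` puts its centroid at the origin.

Authors of the parts (swarms MAH, EQ): helpers 2, 6, 7, 9, 12, 13, 14, 18, 24, 29, 33, 34, 37, 44, 54,
56, 57, 63, 66, 68, 71, 73, 74, 76, 77, 78, 80, 81, 82, 84, 89, 94, 98.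
-/

set_option autoImplicit false

noncomputable section

open MeasureTheory
open scoped ENNReal

namespace Pool.Agent.Results.MP_5f4cdd_gt.MahlerConjecture

variable {n : ℕ}

/-- convex bodies of `ℝⁿ` (in any position) -/
def Body (K : Set (Fin n → ℝ)) : Prop :=
  Convex ℝ K ∧ IsCompact K ∧ (interior K).Nonempty

/-- the `L^p` Mahler volume `|L| ∫ exp (-h_{p,L}(y)) dy` for real `p > 0`, where
`exp (-h_{p,L}(y))` is the power `-1/p` of the average of `exp (p ⟨x, y⟩)` over `L` -/
def Mp (p : ℝ) (L : Set (Fin n → ℝ)) : ℝ≥0∞ := volume L *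
  ∫⁻ y : Fin n → ℝ, ENNReal.ofReal
    (((∫ x in L, Real.exp (p * ∑ i, x i * y i)) / (volume L).toReal) ^ (-(1 / p)))

/-- the Mahler volume `|L| ∫ exp (-h_L(y)) dy` (`p = ∞`), with the support function `h_L` -/
def Minf (L : Set (Fin n → ℝ)) : ℝ≥0∞ := volume L *
  ∫⁻ y : Fin n → ℝ, ENNReal.ofReal
    (Real.exp (-(sSup ((fun x : Fin n → ℝ => ∑ i, x i * y i) '' L))))

/-- the polar body -/
def Polar (K : Set (Fin n → ℝ)) : Set (Fin n → ℝ) := {y | ∀ x ∈ K, ∑ i, x i * y i ≤ 1}

/-- the standard simplex -/
def Simplex (n : ℕ) : Set (Fin n → ℝ) := {z | (∀ i, 0 ≤ z i) ∧ ∑ i, z i ≤ 1}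

/-- the translate `K - z` -/
def shift (K : Set (Fin n → ℝ)) (z : Fin n → ℝ) : Set (Fin n → ℝ) := (fun x => x - z) '' K

/-- `K` is a simplex with its centroid at the origin (for a convex body `K`) -/
def CentredSimplex (K : Set (Fin n → ℝ)) : Prop :=
  ∃ y : Fin (n + 1) → Fin n → ℝ, K = convexHull ℝ (Set.range y) ∧ ∑ i, y i = 0

/-- **Mahler's conjecture for general convex bodies**, in every dimension, with the equality
cases. -/
theorem result (n : ℕ) (K : Set (Fin n → ℝ)) (hK : Body K) :
    -- (1) the inequality of the problem for `p = ∞`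
    ⨅ x ∈ Simplex n, Minf (shift (Simplex n) x) ≤ Minf K ∧
    -- (2) the value of the infimum
    ⨅ x ∈ Simplex n, Minf (shift (Simplex n) x) =
      ENNReal.ofReal (((n : ℝ) + 1) ^ (n + 1) / (n.factorial : ℝ)) ∧
    -- (3) equality holds exactly for the simplices with centroid at the origin
    (Minf K = ⨅ x ∈ Simplex n, Minf (shift (Simplex n) x) ↔ CentredSimplex K) ∧
    -- (4) the same lower bound for every finite `p`
    (∀ p : ℝ, 0 < p → ENNReal.ofReal (((n : ℝ) + 1) ^ (n + 1) / (n.factorial : ℝ)) ≤ Mp p K) ∧
    -- (5) the volume product, with its equality cases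
    ((0 : Fin n → ℝ) ∈ interior K →
      ENNReal.ofReal (((n : ℝ) + 1) ^ (n + 1) / (n.factorial : ℝ) ^ 2) ≤
        volume K * volume (Polar K) ∧
      (volume K * volume (Polar K) =
        ENNReal.ofReal (((n : ℝ) + 1) ^ (n + 1) / (n.factorial : ℝ) ^ 2) ↔ CentredSimplex K)) :=
  Helper37.EQ.All.main n K hK

end Pool.Agent.Results.MP_5f4cdd_gt.MahlerConjecture

end
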