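import Pool.Agent.Helper86.LPN.B9

set_option autoImplicit false

noncomputable section

open MeasureTheory Set
open scoped ENNReal

namespace Pool.Agent.Results.MP_5f4cdd_gt.SubdirectSums

/-- the `L^p` Mahler volume `|L| ∫ exp (-h_{p,L}(y)) dy` of a set `L ⊆ ℝⁿ`, where
`exp (-h_{p,L}(y))` is the power `-1/p` of the average of `exp (p ⟨x, y⟩)` over `L` -/
def Mp {n : ℕ} (p : ℝ) (L : Set (Fin n → ℝ)) : ℝ≥0∞ := volume L *
  ∫⁻ y : Fin n → ℝ, ENNReal.ofReal
    (((∫ x in L, Real.exp (p * ∑ i, x i * y i)) / (volume L).toReal) ^ (-(1 / p)))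

/-- the case `p = ∞`: `|L| ∫ exp (-h_L(y)) dy` with the usual support function `h_L` -/
def Minf {n : ℕ} (L : Set (Fin n → ℝ)) : ℝ≥0∞ := volume L *
  ∫⁻ y : Fin n → ℝ, ENNReal.ofReal
    (Real.exp (-(sSup ((fun x : Fin n → ℝ => ∑ i, x i * y i) '' L))))

/-- the standard simplex -/
def Simplex (n : ℕ) : Set (Fin n → ℝ) := {z | (∀ i, 0 ≤ z i) ∧ ∑ i, z i ≤ 1}

/-- The smallest family of subsets of `ℝⁿ` that contains all nonempty compact convex sets of
dimension at most two and is closed under subdirect sums: the convex hull of the union of two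
members whose affine hulls have linearly independent directions and which have a common point. -/
inductive Family {n : ℕ} : Set (Fin n → ℝ) → Prop
  | planar (K : Set (Fin n → ℝ)) : K.Nonempty → IsCompact K → Convex ℝ K →
      Module.finrank ℝ (vectorSpan ℝ K) ≤ 2 → Family K
  | sum (A B : Set (Fin n → ℝ)) : Family A → Family B → (A ∩ B).Nonempty →
      Disjoint (vectorSpan ℝ A) (vectorSpan ℝ B) → Family (convexHull ℝ (A ∪ B))

/-- **The sharp non-symmetric `L^p` Mahler inequality**, for every `p ∈ (0, ∞]`, every dimension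
and every convex body that is a member of the family above or is the convex hull of at most
`n + 2` points. -/
theorem result : ∀ n : ℕ, ∀ K : Set (Fin n → ℝ), (interior K).Nonempty →
    (Family K ∨ ∃ s : Finset (Fin n → ℝ), s.card ≤ n + 2 ∧ K = convexHull ℝ (s : Set (Fin n → ℝ))) →
    (∀ p : ℝ, 0 < p →
      (⨅ x ∈ Simplex n, Mp p ((fun z : Fin n → ℝ => z - x) '' Simplex n)) ≤ Mp p K) ∧
    (⨅ x ∈ Simplex n, Minf ((fun z : Fin n → ℝ => z - x) '' Simplex n)) ≤ Minf K := by
  intro n K hi hK
  have hsub : Helper86.LPN.Sub K := by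
    rcases hK with h | ⟨s, hs, rfl⟩
    · clear hi
      induction h with
      | planar K hne hK hc hd => exact Helper86.LPN.Sub.planar K hne hK hc hd
      | sum A B _ _ hAB hd ihA ihB => exact Helper86.LPN.Sub.sum A B ihA ihB hAB hd
    · have hne : s.Nonempty := by
        rw [Finset.nonempty_iff_ne_empty]
        rintro rfl
        simp at hi
      apply Helper86.LPN.sub_few s hne
      have h1 : affineSpan ℝ (convexHull ℝ (s : Set (Fin n → ℝ))) = ⊤ :=
        ((convex_convexHull ℝ _).interior_nonempty_iff_affineSpan_eq_top).1 hi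
      rw [affineSpan_convexHull] at h1
      have h2 : vectorSpan ℝ (s : Set (Fin n → ℝ)) = ⊤ := by
        rw [← direction_affineSpan, h1, AffineSubspace.direction_top]
      rw [h2, finrank_top, Module.finrank_fin_fun]
      exact hs
  exact ⟨fun p hp => Helper86.LPN.mahler_sub hp hsub hi, Helper86.LPN.mahler_inf_sub hsub hi⟩

end Pool.Agent.Results.MP_5f4cdd_gt.SubdirectSums
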