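import Pool.Agent.Helper63.LU.All

/-!
# The simplices are local minimisers of the `L^p` Mahler volumes, for all `0 < p < ∞` at once

For every dimension `n ≥ 1` there is `δ(n) > 0` such that for every `0 < p < ∞` the inequality of the
non-symmetric `L^p` Mahler conjecture holds for every convex body `K`, in any position, which is
contained in a simplex of volume at most `(1 + δ(n)) |K|`, with equality only for simplices and with
a stability term which is linear in the volume defect.  The size `δ(n)` of the neighbourhood does not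
depend on `p`; so the theorem survives the limit `p → ∞` (Mahler's conjecture, where it is the theorem of
Kim and Reisner) and the limit `p → 0` (isotropic constants).

Proof.  Let `K` be contained in the centered simplex `Δ`, `V = |Δ|`, `m(y)` the mean of `exp (p ⟨x,y⟩)`
over `Δ`, and let `N(x)` be the mean of `exp (p ⟨x,y⟩) / m(y)` for the probability density
proportional to `m^(-1/p)`.  If `ρ(y)` is the quotient of the means over `K` and over `Δ`, then
`exp ⟨z,y⟩ ρ^(-1/p) ≥ exp (⟨z,y⟩ + (1-ρ)/p) ≥ 1 + ⟨z,y⟩ + (1-ρ)/p`, and this gives, for ALL `K` in `Δ`, all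
`z` and all `p`, the inequality without error terms
  `M_p (K - z) / M_p (Δ) ≥ 1 + (1/(p V)) ∫_{Δ \ K} (N(x) - (1 + p)) dx`.
`N` is symmetric and convex, its mean over a facet is `1 + p`, and for bounded `p` the functions
`(N - 1)/p` are uniformly bounded, uniformly Lipschitz on rays and uniformly convex (scaling
`y = u/√p`); with the correlation inequality for symmetric convex functions on a simplex the integral
is at least `c p |Δ \ K|` if `K` contains the facet centroids and is close to `Δ`.  For large `p` this is
`LargeExponents`.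

Authors of the parts (swarm LU): helpers 5, 10, 41, 47, 63, 86, 95 and the authors of
SimplexLocalMinimality (helper 77) and LargeExponents.
-/

set_option autoImplicit false

noncomputable section

open MeasureTheory
open scoped ENNReal

namespace Pool.Agent.Results.MP_5f4cdd_gt.UniformLocalMinimality

variable {n : ℕ}

/-- convex bodies of `ℝⁿ` (in any position) -/
def Body (K : Set (Fin n → ℝ)) : Prop :=
  Convex ℝ K ∧ IsCompact K ∧ (interior K).Nonempty

/-- the `L^p` Mahler volume `|L| ∫ exp (-h_{p,L}(y)) dy` for real `p > 0`, where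
`exp (-h_{p,L}(y))` is the power `-1/p` of the average of `exp (p ⟨x, y⟩)` over `L` -/
def Mp (p : ℝ) (L : Set (Fin n → ℝ)) : ℝ≥0∞ := volume L *
  ∫⁻ y : Fin n → ℝ, ENNReal.ofReal
    (((∫ x in L, Real.exp (p * ∑ i, x i * y i)) / (volume L).toReal) ^ (-(1 / p)))

/-- the standard simplex `Δ_n` -/
def stdSimp (n : ℕ) : Set (Fin n → ℝ) := {z | (∀ i, 0 ≤ z i) ∧ ∑ i, z i ≤ 1}

/-- simplices: the images of the standard simplex under the invertible affine maps -/
def IsSimplex (T : Set (Fin n → ℝ)) : Prop :=
  ∃ (A : Matrix (Fin n) (Fin n) ℝ) (c : Fin n → ℝ), A.det ≠ 0 ∧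
    T = (fun x => A.mulVec x + c) '' stdSimp n

/-- the right hand side of Q1: the infimum of `M_p (Δ_n - x)` over `x ∈ Δ_n` -/
def infSimp (p : ℝ) (n : ℕ) : ℝ≥0∞ :=
  ⨅ x ∈ stdSimp n, Mp p ((fun z => z - x) '' stdSimp n)

/-- **Local minimality of the simplices for the `L^p` Mahler volumes, uniformly in `p`.** -/
theorem result (n : ℕ) (hn : 1 ≤ n) : ∃ δ : ℝ, 0 < δ ∧
    ∀ (p : ℝ) (K T₀ : Set (Fin n → ℝ)), 0 < p → Body K → IsSimplex T₀ → K ⊆ T₀ →
      volume T₀ ≤ ENNReal.ofReal (1 + δ) * volume K →
      -- (1) the inequality of Q1 holds for `K`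
      infSimp p n ≤ Mp p K ∧
      -- (2) with equality only if `K` is a simplex
      (Mp p K = infSimp p n → IsSimplex K) ∧
      -- (3) stability, linear in the volume defect
      ∃ T : Set (Fin n → ℝ), IsSimplex T ∧ K ⊆ T ∧ volume T ≤ volume T₀ ∧
        ENNReal.ofReal (1 + δ * ((volume T).toReal / (volume K).toReal - 1)) * infSimp p n
          ≤ Mp p K := by
  obtain ⟨δ, hδ, h⟩ := Helper63.LU.All.main n hn
  refine ⟨δ, hδ, ?_⟩
  rintro p K T₀ hp ⟨hcv, hcp, hin⟩ hT₀ hKT hvol
  exact h p K T₀ hp hcv hcp hin hT₀ hKT hvol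

end Pool.Agent.Results.MP_5f4cdd_gt.UniformLocalMinimality

end
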